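import Pool.Agent.Lib.MP_d31508_co.Shp.Stmts

/-!
# Deleting edges from a kernel (helper20)
-/

set_option autoImplicit false
set_option linter.unusedSectionVars false

namespace Pool.Agent.Lib.MP_d31508_co.Shp

open Finset Classical
open Pool.Agent.Lib.MP_d31508_co.Asy (dg Cl D HasP f)
open Pool.Agent.Lib.MP_d31508_co.Sharp

namespace Thin

variable {V : Type} [Fintype V] {G G' : SimpleGraph V}

lemma dg_le_graph (h : G' ≤ G) (X : Finset V) (x : V) : dg G' X x ≤ dg G X x := by
  unfold dg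
  refine card_le_card fun y hy => ?_
  obtain ⟨h1, h2⟩ := mem_filter.1 hy
  exact mem_filter.2 ⟨h1, h h2⟩

lemma D_le_graph (h : G' ≤ G) (X : Finset V) : D G' X ≤ D G X := by
  unfold D
  exact sum_le_sum fun x _ => dg_le_graph h X x

lemma dg_congr {X : Finset V} {x : V} (h : ∀ y ∈ X, G'.Adj x y ↔ G.Adj x y) :
    dg G' X x = dg G X x := by
  unfold dg
  rw [filter_congr h]

/-- The number of edges after the deletion of the edge `ab`. -/
lemma D_delete {S : Finset V} {a b : V} (ha : a ∈ S) (hb : b ∈ S) (hab : G.Adj a b) :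
    D (G.deleteEdges {s(a, b)}) S + 2 = D G S := by
  set G2 := G.deleteEdges {s(a, b)} with hG2
  have hadj : ∀ x y, G2.Adj x y ↔ G.Adj x y ∧ s(x, y) ≠ s(a, b) := by
    intro x y
    rw [hG2, SimpleGraph.deleteEdges_adj, Set.mem_singleton_iff]
  have hne : a ≠ b := hab.ne
  set S' := (S.erase a).erase b with hS'
  have haS : a ∉ S' := fun h => notMem_erase a S (mem_of_mem_erase h)
  have hbS : b ∉ S' := notMem_erase b _
  have hS1 : S = insert a (insert b S') := by
    rw [hS', insert_erase (mem_erase.2 ⟨hne.symm, hb⟩), insert_erase ha]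
  have haS2 : a ∉ insert b S' := by
    rw [mem_insert]
    rintro (h | h)
    · exact hne h
    · exact haS h
  have e1 : D G2 S' = D G S' := by
    unfold D
    refine sum_congr rfl fun x hx => dg_congr fun y hy => ?_
    rw [hadj]
    constructor
    · exact fun h => h.1
    · intro h
      refine ⟨h, fun h2 => ?_⟩
      rw [Sym2.eq_iff] at h2
      rcases h2 with ⟨h3, _⟩ | ⟨h3, _⟩
      · exact haS (h3 ▸ hx)
      · exact hbS (h3 ▸ hx)
  have e2 : dg G2 S' a = dg G S' a := by
    refine dg_congr fun y hy => ?_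
    rw [hadj]
    constructor
    · exact fun h => h.1
    · intro h
      refine ⟨h, fun h2 => ?_⟩
      rw [Sym2.eq_iff] at h2
      rcases h2 with ⟨_, h3⟩ | ⟨h3, _⟩
      · exact hbS (h3 ▸ hy)
      · exact hne h3
  have e3 : dg G2 S' b = dg G S' b := by
    refine dg_congr fun y hy => ?_
    rw [hadj]
    constructor
    · exact fun h => h.1
    · intro h
      refine ⟨h, fun h2 => ?_⟩
      rw [Sym2.eq_iff] at h2
      rcases h2 with ⟨h3, _⟩ | ⟨_, h3⟩
      · exact hne h3.symm
      · exact haS (h3 ▸ hy)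
  have e4 : ¬ G2.Adj a b := by
    rw [hadj]
    exact fun h => h.2 rfl
  rw [hS1, D_insert haS2, D_insert haS2, D_insert hbS, D_insert hbS, dg_insert hbS,
    dg_insert hbS, e1, e2, e3, if_neg e4, if_pos hab]
  ring

/-- `D` is supermodular. -/
lemma D_super (P Q : Finset V) : D G P + D G Q ≤ D G (P ∪ Q) + D G (P ∩ Q) := by
  have h1 : P ∪ Q = P ∪ (Q \ P) := by
    rw [union_sdiff_self_eq_union]
  have h2 : Q = (P ∩ Q) ∪ (Q \ P) := by
    ext x
    simp only [mem_union, mem_inter, mem_sdiff]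
    tauto
  have h3 : Disjoint (P ∩ Q) (Q \ P) := by
    rw [disjoint_left]
    intro x hx hx'
    exact (mem_sdiff.1 hx').2 (mem_inter.1 hx).1
  have h4 : D G (P ∪ Q) = D G P + D G (Q \ P) + 2 * ∑ y ∈ Q \ P, dg G P y := by
    rw [h1]
    exact D_union disjoint_sdiff
  have h5 : D G Q = D G (P ∩ Q) + D G (Q \ P) + 2 * ∑ y ∈ Q \ P, dg G (P ∩ Q) y := by
    conv_lhs => rw [h2]
    exact D_union h3
  have h6 : ∑ y ∈ Q \ P, dg G (P ∩ Q) y ≤ ∑ y ∈ Q \ P, dg G P y :=
    sum_le_sum fun y _ => dg_mono inter_subset_left y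
  omega

end Thin

open _root_.Pool.Agent.Lib.MP_d31508_co.Shp.Thin

theorem stThin : StThin := by
  intro V _ G W p q hq hker
  -- a minimal spanning kernel
  have hex : ∃ n : ℕ, ∃ G' : SimpleGraph V, G' ≤ G ∧ Ker G' p q ∅ W ∧ D G' W = n :=
    ⟨D G W, G, le_refl _, hker, rfl⟩
  obtain ⟨G', hG', hK, hD⟩ := Nat.find_spec hex
  have hmin : ∀ G'' : SimpleGraph V, G'' ≤ G → Ker G'' p q ∅ W → D G' W ≤ D G'' W := by
    intro G'' h1 h2
    rw [hD]
    exact Nat.find_min' hex ⟨G'', h1, h2, rfl⟩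
  refine ⟨G', hG', hK, ?_⟩
  -- (1)
  have key : ∀ a ∈ W, ∀ b ∈ W, G'.Adj a b → ∃ Z ⊆ W, (a ∈ Z ∨ b ∈ Z) ∧
      q * D G' W < 2 * p * Z.card + 2 * q + q * D G' (W \ Z) := by
    intro a ha b hb hab
    have h1 := D_delete ha hb hab
    have h2 : G'.deleteEdges {s(a, b)} ≤ G' := SimpleGraph.deleteEdges_le _
    have h3 : ¬ Ker (G'.deleteEdges {s(a, b)}) p q ∅ W := by
      intro h4
      have := hmin _ (h2.trans hG') h4
      omega
    unfold Ker at h3
    push Not at h3
    obtain ⟨Z, hZ, hZn, hlt⟩ := h3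
    rw [empty_union, empty_union] at hlt
    have h4 : D (G'.deleteEdges {s(a, b)}) (W \ Z) ≤ D G' (W \ Z) := D_le_graph h2 _
    have h5 : q * D (G'.deleteEdges {s(a, b)}) W + 2 * q = q * D G' W := by
      rw [← h1]
      ring
    refine ⟨Z, hZ, ?_, ?_⟩
    · by_contra hcon
      push Not at hcon
      have h6 := D_delete (S := W \ Z) (mem_sdiff.2 ⟨ha, hcon.1⟩) (mem_sdiff.2 ⟨hb, hcon.2⟩) hab
      have h7 := hK Z hZ hZn
      rw [empty_union, empty_union] at h7
      have h8 : q * D (G'.deleteEdges {s(a, b)}) (W \ Z) + 2 * q = q * D G' (W \ Z) := by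
        rw [← h6]
        ring
      omega
    · have h6 := Nat.mul_le_mul_left q h4
      omega
  -- (3)
  set F : Finset (Finset V) := W.powerset.filter
    (fun U => q * D G' W ≤ 2 * (p + q) * U.card + q * D G' (W \ U)) with hF
  have hFn : F.Nonempty := by
    refine ⟨∅, mem_filter.2 ⟨empty_mem_powerset W, ?_⟩⟩
    rw [card_empty, sdiff_empty, Nat.mul_zero, Nat.zero_add]
  obtain ⟨U, hU, hmax⟩ := exists_max_image F Finset.card hFn
  obtain ⟨hUW, hU1⟩ := mem_filter.1 hU
  rw [mem_powerset] at hUW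
  have hzero : D G' (W \ U) = 0 := by
    by_contra hne
    have h1 : ∃ x ∈ W \ U, dg G' (W \ U) x ≠ 0 := by
      by_contra hcon
      push Not at hcon
      exact hne (sum_eq_zero hcon)
    obtain ⟨x, hx, hx2⟩ := h1
    obtain ⟨y, hy, hxy⟩ := one_le_dg_iff.1 (Nat.one_le_iff_ne_zero.2 hx2)
    obtain ⟨hxW, hxU⟩ := mem_sdiff.1 hx
    obtain ⟨hyW, hyU⟩ := mem_sdiff.1 hy
    obtain ⟨Z, hZ, hZxy, hlt⟩ := key x hxW y hyW hxy
    have hZU : (Z \ U).Nonempty := by
      rcases hZxy with h | h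
      · exact ⟨x, mem_sdiff.2 ⟨h, hxU⟩⟩
      · exact ⟨y, mem_sdiff.2 ⟨h, hyU⟩⟩
    have hcZ : 1 ≤ (Z \ U).card := card_pos.2 hZU
    have h2 := D_super (G := G') (W \ U) (W \ Z)
    have h3 : (W \ U) ∪ (W \ Z) = W \ (U ∩ Z) := by
      ext w
      simp only [mem_union, mem_sdiff, mem_inter]
      tauto
    have h4 : (W \ U) ∩ (W \ Z) = W \ (U ∪ Z) := by
      ext w
      simp only [mem_union, mem_sdiff, mem_inter]
      tauto
    rw [h3, h4] at h2
    have h5 : 2 * p * (U ∩ Z).card + q * D G' (W \ (U ∩ Z)) ≤ q * D G' W := by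
      rcases (U ∩ Z).eq_empty_or_nonempty with h | h
      · rw [h, card_empty, sdiff_empty]
        omega
      · have := hK (U ∩ Z) (inter_subset_left.trans hUW) h
        rwa [empty_union, empty_union] at this
    have h6 : (U ∪ Z).card = U.card + (Z \ U).card := by
      rw [← card_union_of_disjoint disjoint_sdiff, union_sdiff_self_eq_union]
    have h7 : Z.card = (U ∩ Z).card + (Z \ U).card := by
      rw [inter_comm, ← card_sdiff_add_card_inter Z U]
      omega
    have h8 : U ∪ Z ∈ F := by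
      refine mem_filter.2 ⟨mem_powerset.2 (union_subset hUW hZ), ?_⟩
      have h9 := Nat.mul_le_mul_left q h2
      rw [Nat.mul_add, Nat.mul_add] at h9
      rw [h7] at hlt
      rw [h6]
      have h10 : 2 * p * (Z \ U).card + 2 * q ≤ 2 * (p + q) * (Z \ U).card := by
        have := Nat.mul_le_mul_left (2 * q) hcZ
        have h11 : 2 * (p + q) * (Z \ U).card = 2 * p * (Z \ U).card + 2 * q * (Z \ U).card := by
          ring
        omega
      have h12 : 2 * p * ((U ∩ Z).card + (Z \ U).card) =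
          2 * p * (U ∩ Z).card + 2 * p * (Z \ U).card := by ring
      have h13 : 2 * (p + q) * (U.card + (Z \ U).card) =
          2 * (p + q) * U.card + 2 * (p + q) * (Z \ U).card := by ring
      omega
    have h9 := hmax _ h8
    omega
  rw [hzero, Nat.mul_zero, Nat.add_zero] at hU1
  exact hU1.trans (Nat.mul_le_mul_left _ (card_le_card hUW))

end Pool.Agent.Lib.MP_d31508_co.Shp
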