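import Pool.Agent.Lib.MP_d31508_co.Sharp.Cover

/-!
# Project SHP (MP_d31508_co): the sharp asymptotics of `f(n,k)` for `log n` up to `c √k`

Complement language as in project AS: `m = k + 2`, and `H` has no closed `m`-set. Kernels `Ker`
and hanging sets `Hang` are those of `Sharp.Cover` and `Sharp.Basic`.
Every module proves one of the statements `St...` below.
-/

namespace Pool.Agent.Lib.MP_d31508_co.Shp

open Finset Classical
open Pool.Agent.Lib.MP_d31508_co.Asy (dg Cl D HasP f)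
open Pool.Agent.Lib.MP_d31508_co.Sharp (Ker)

/-- module Thin: a kernel stays a kernel (of the same density) after the deletion of all but
`(p/q + 1)|W|` edges -/
def StThin : Prop := ∀ (V : Type) [Fintype V] (G : SimpleGraph V) (W : Finset V) (p q : ℕ),
  1 ≤ q → Ker G p q ∅ W →
  ∃ G' : SimpleGraph V, G' ≤ G ∧ Ker G' p q ∅ W ∧ q * D G' W ≤ 2 * (p + q) * W.card

/-- module Sel: `L` removable vertices of small degree -/
def StSel : Prop := ∀ (V : Type) [Fintype V] (G₁ G₂ : SimpleGraph V) (W₁ W₂ : Finset V)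
  (p q L : ℕ), W₂ ⊆ W₁ → 3 * q < 2 * p → Ker G₂ p q ∅ W₂ → D G₂ W₂ ≤ 6 * W₂.card →
  D G₁ W₁ ≤ 6 * W₁.card → 6 * (L * (72 * (L + 2) + 1)) < W₂.card →
  ∃ Y : Finset V, Y ⊆ W₂ ∧ Y.card = L ∧ (∀ u ∈ W₂, 2 ≤ dg G₂ (W₂ \ Y) u) ∧
    ∑ y ∈ Y, dg G₂ W₂ y ≤ 72 * L ∧
    (∑ y ∈ Y, dg G₁ W₁ y) * W₂.card ≤ 72 * L * W₁.card

/-- module Flex: a small closed set `B` in which all vertices of `Y` have two neighbours -/
def StFlexB : Prop := ∀ (V : Type) [Fintype V] (G : SimpleGraph V) (W Y : Finset V)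
  (p q r : ℕ), 1 ≤ q → 3 * q ≤ 2 * p → Ker G p q ∅ W → Y ⊆ W →
  (∀ u ∈ W, 2 ≤ dg G (W \ Y) u) → Fintype.card V * 4 ^ r < 5 ^ r →
  ∃ B : Finset V, B ⊆ W \ Y ∧ Cl G B ∧ (∀ y ∈ Y, 2 ≤ dg G B y) ∧
    B.card ≤ 4 * (∑ y ∈ Y, dg G W y) +
      (8 * (∑ y ∈ Y, dg G W y) + 2 * Y.card) * (4 * r + 3)

/-- module Up: the upper bound for the number of edges (`ε = 2 / N`) -/
def StUp : Prop := ∀ (V : Type) [Fintype V] (G : SimpleGraph V) (m N r : ℕ), 5 ≤ N → 1 ≤ r →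
  Fintype.card V * (5 * N) ^ r < (5 * N + 1) ^ r →
  50000 * N * r ^ 2 ≤ m → 50000 * N ^ 3 * r ≤ m →
  (N + 2) * (m * m + 2 * Fintype.card V) ≤ N * D G univ →
  3 * (N + 2) * Fintype.card V ≤ N * D G univ →
  ∃ S : Finset V, S.card = m ∧ Cl G S

/-- the final statement -/
def StSharp : Prop := ∃ C : ℝ, 0 < C ∧ ∀ n k : ℕ, k + 2 ≤ n → C * Real.log n ^ 2 ≤ k →
  |((n.choose 2 : ℕ) : ℝ) - (f n k : ℝ) - max ((k : ℝ) ^ 2 / 2 + (n : ℝ)) (3 * (n : ℝ) / 2)| ≤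
    C * (Real.log n ^ 2 / k) ^ (1 / 4 : ℝ) *
      max ((k : ℝ) ^ 2 / 2 + (n : ℝ)) (3 * (n : ℝ) / 2)

end Pool.Agent.Lib.MP_d31508_co.Shp
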